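import Pool.Agent.U481.EU.Low
import Pool.Agent.U481.EU.Mod

/-!
# Blow-up of the Euler equations and functions which increase along the vortex lines

Let `M(t)` be the maximum of the vorticity `ω` of a `C²` periodic solution of the Euler equations.
We look at the vorticity near ONE point `x = x(t)` where the maximum is attained, and assume two
geometric conditions.

* `TimeFunction`: in the ball `B_ρ(x)` some function with Lipschitz constant one increases along the
  vortex lines with the rate `κ > 0`, up to vorticities of the size `ρ^(-5/2)`. For instance, the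
  large vorticities in the ball are in a half-space cone `e · ω ≥ κ |ω|`, where the unit vector
  `e` may depend on the time.
* `Pairs`: the part of `ω(x + y) + ω(x - y)` which turns around the axis through `x` in the direction
  `ω(x)` satisfies a ONE-SIDED bound with a modulus `η(|y|)`. This is the case if the angle
  between `ω(y)` and the line of `ω(x)` is at most `η(|y - x|)`.

The first condition and the conservation of energy imply that the integral of `|ω|` over balls of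
radius `r` with centre `x` is at most `C ρ^(-1/2) r`: no velocity bound is needed. The stretching at
`x` is an integral over the pairs, and so it is bounded by
`C (∫₀^ρ η(r) min(M, ρ^(-1/2) r^(-2)) dr / r + ρ^(-5/2))`, instead of `C M`. With `η(r) = G r^β` the
integral is `C G M^(1 - β / 2)`: the power of the vorticity in the criterion of Beale, Kato and Majda
is lowered from `1` to `1 - β / 2`, and the vorticity can only blow up at the rate
`(T - t)^(-2 / (2 - β))` or faster. In particular there are no singularities of Type I, for any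
`β > 0`.
-/

open MeasureTheory Set Filter

set_option autoImplicit false

namespace Pool.Agent.Results.MP_b0497c_an.CoherentBlowupRate

open Pool.Agent.H708R2.EulerSign Pool.Agent.H708R2.EulerTypeI Pool.Agent.W786.Max
  Pool.Agent.W786.Dir

/-- Some continuously differentiable function `g` with Lipschitz constant one satisfies
`κ |ω| ≤ ω · ∇g + ρ^(-5/2)` in the ball with centre `x` and radius `ρ`, where `ω` is the vorticity
of `v`. -/
def TimeFunction (κ ρ : ℝ) (v : V → V) (x : V) : Prop :=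
  ∃ g : V → ℝ, ContDiff ℝ 1 g ∧ (∀ y z, |g y - g z| ≤ nrm (y - z)) ∧
    ∀ y, nrm (y - x) < ρ →
      κ * nrm (vort v y) ≤ fderiv ℝ g y (vort v y) + ρ ^ (-(5 / 2) : ℝ)

/-- The one-sided bound with the modulus `η` for the vorticity at the pairs `x + y`, `x - y`,
`|y| < ρ`:
`(y · ω(x)) ((ω(x) × y) · (ω(x + y) + ω(x - y))) ≤ η(|y|) |y|² |ω(x)|² (|ω(x + y)| + |ω(x - y)|)`. -/
def Pairs (ρ : ℝ) (η : ℝ → ℝ) (v : V → V) (x : V) : Prop :=
  ∀ y, 0 < nrm y → nrm y < ρ →
    (y ⬝ᵥ vort v x) * ((vort v (x + y) + vort v (x - y)) ⬝ᵥ cross (vort v x) y)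
      ≤ η (nrm y) * nrm y ^ 2 * nrm (vort v x) ^ 2 * (nrm (vort v (x + y)) + nrm (vort v (x - y)))

/-- Let `(u, p)` be a `C²` periodic solution of the Euler equations on `[0, T)`, and `κ > 0`.

(1) Let `0 < ρ(t) ≤ 1`, let `ρ^(-5/2)`, `H`, `Λ` be integrable on `(0, T)` and `Λ` nondecreasing. If
for almost every `t` there is a point `x` of maximal vorticity with `|ω(x)| ≤ Λ(t)` or with the
conditions `TimeFunction` and `Pairs`, with `ρ = ρ(t)` and a nondecreasing modulus `η ≥ 0` such that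
`∫₀^ρ η(r) min(|ω(x)|, ρ^(-1/2) r^(-2)) dr / r ≤ H(t)`, then the Beale-Kato-Majda integral is finite.

(2) Let `0 < β < 2`, `G ≥ 0`, `0 < ρ ≤ 1`, `Λ`, `T₀ < T` be constants. If for almost every `t` in
`(T₀, T)` there is a point `x` of maximal vorticity with `|ω(x)| ≤ Λ` or with the conditions
`TimeFunction` and `Pairs` with `η(r) = G r^β`, and if the Beale-Kato-Majda integral is infinite,
then the maximum of the vorticity is at least `c (T - t)^(-2 / (2 - β))` for all `t` near `T`, with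
some `c > 0`. -/
theorem result (T κ : ℝ) (u : ℝ → V → V) (p : ℝ → V → ℝ) (h : IsC2Solution T u p) (hκ : 0 < κ) :
    (∀ ρ H Λ : ℝ → ℝ, (∀ t ∈ Ioo 0 T, 0 < ρ t ∧ ρ t ≤ 1) →
      IntegrableOn (fun t => ρ t ^ (-(5 / 2) : ℝ)) (Ioo 0 T) → IntegrableOn H (Ioo 0 T) →
      MonotoneOn Λ (Ioo 0 T) → IntegrableOn Λ (Ioo 0 T) →
      (∀ᵐ t, t ∈ Ioo 0 T → ∃ x, IsMaxPt u t x ∧ (Λ t < nrm (vort (u t) x) →
        TimeFunction κ (ρ t) (u t) x ∧ ∃ η : ℝ → ℝ, (∀ r ∈ Ioo 0 (ρ t), 0 ≤ η r) ∧
          MonotoneOn η (Ioo 0 (ρ t)) ∧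
          IntegrableOn (fun r => η r *
            min (nrm (vort (u t) x)) (ρ t ^ (-(1 / 2) : ℝ) / r ^ 2) / r) (Ioo 0 (ρ t)) ∧
          ∫ r in Ioo 0 (ρ t), η r *
            min (nrm (vort (u t) x)) (ρ t ^ (-(1 / 2) : ℝ) / r ^ 2) / r ≤ H t ∧
          Pairs (ρ t) η (u t) x)) →
      BKMFinite T u) ∧
    (∀ β G ρ Λ T₀ : ℝ, 0 < β → β < 2 → 0 ≤ G → 0 < ρ → ρ ≤ 1 → 0 ≤ T₀ → T₀ < T →
      (∀ᵐ t, t ∈ Ioo T₀ T → ∃ x, IsMaxPt u t x ∧ (Λ < nrm (vort (u t) x) →
        TimeFunction κ ρ (u t) x ∧ Pairs ρ (fun r => G * r ^ β) (u t) x)) →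
      ¬ BKMFinite T u →
      ∃ c : ℝ, 0 < c ∧ ∃ T₁ ∈ Ioo T₀ T, ∀ t ∈ Ioo T₁ T, ∃ x,
        c * (T - t) ^ (-(2 / (2 - β))) ≤ nrm (vort (u t) x)) := by
  refine ⟨fun ρ H Λ hρ hρi hHi hΛ hΛi hyp => ?_, ?_⟩
  · refine Pool.Agent.U481.EU.crit h hκ hρ hρi hHi hΛ hΛi ?_
    filter_upwards [hyp] with t ht htI
    obtain ⟨x, hx, hx2⟩ := ht htI
    refine ⟨x, hx, fun hlt => ?_⟩
    obtain ⟨h1, η, h2, h3, h4, h5, h6⟩ := hx2 hlt
    exact ⟨h1, η, h2, h3, h4, h5, h6⟩
  · intro β G ρ Λ T₀ hβ0 hβ2 hG hρ hρ1 hT0 hT₀ hyp hB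
    obtain ⟨C, hC, hest⟩ := Pool.Agent.U481.EU.rate_est (κ := min κ 1) (lt_min hκ one_pos)
      (min_le_right _ _)
    obtain ⟨E, hE⟩ : ∃ E, E = Pool.Agent.U481.EU.ener (u 0) := ⟨_, rfl⟩
    have hE0 : 0 ≤ E := by rw [hE]; exact integral_nonneg fun _ => sq3_nonneg _
    obtain ⟨S, hS⟩ : ∃ S, S = ρ ^ (-(1 / 2) : ℝ) := ⟨_, rfl⟩
    have hS0 : 0 < S := by rw [hS]; exact Real.rpow_pos_of_pos hρ _
    obtain ⟨D, hD⟩ : ∃ D, D = G * (1 / β + 1 / (2 - β)) * S ^ (β / 2) := ⟨_, rfl⟩
    have h2β : 0 < 2 - β := by linarith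
    have hD0 : 0 ≤ D := by
      have := (Real.rpow_pos_of_pos hS0 (β / 2)).le
      rw [hD]
      positivity
    obtain ⟨R, hR⟩ : ∃ R, R = ρ ^ (-(5 / 2) : ℝ) := ⟨_, rfl⟩
    have hR0 : 0 < R := by rw [hR]; exact Real.rpow_pos_of_pos hρ _
    have key := Pool.Agent.U481.EU.low_rate h (α := 1 - β / 2) (C := C * (1 + E) * (D + R))
      (Λ := max Λ 0) hT0 hT₀ (by linarith) (by positivity) ?_ hB
    · rwa [show 1 / (1 - β / 2) = 2 / (2 - β) by field_simp] at key
    · filter_upwards [hyp] with t ht htI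
      obtain ⟨x, hx, hx2⟩ := ht htI
      refine ⟨x, hx, fun hlt => ?_⟩
      have htI0 : t ∈ Ioo 0 T := ⟨hT0.trans_lt htI.1, htI.2⟩
      have htc : t ∈ Ico 0 T := ⟨htI0.1.le, htI0.2⟩
      have hpos : 0 < nrm (vort (u t) x) := (le_max_right _ _).trans_lt hlt
      obtain ⟨h1, h2⟩ := hx2 ((le_max_left _ _).trans_lt hlt)
      have hv : ContDiff ℝ 2 (u t) := slice_two h htI0
      obtain ⟨m1, m2⟩ := Pool.Agent.U481.EU.mod_int hG hβ0 hβ2 hS0 hpos ρ
      rw [hS] at m1 m2
      have htf : Pool.Agent.U481.EU.TimeFn (min κ 1) ρ (u t) x :=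
        Pool.Agent.U481.EU.TimeFn.mono (κ := κ) h1 (min_le_left _ _)
      have h3 := hest E ρ (D * nrm (vort (u t) x) ^ (1 - β / 2)) (u t) x hρ hv
        (h.sol.div_free t htc) (by rw [hE]; exact Pool.Agent.U481.EU.loc_ener h.sol htc x hρ1)
        hx hpos htf ⟨fun r => G * r ^ β, fun r hr => by
            have := Real.rpow_nonneg hr.1.le β
            positivity,
          fun r hr s hs hrs => mul_le_mul_of_nonneg_left
            (Real.rpow_le_rpow hr.1.le hrs hβ0.le) hG, m1, by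
            refine m2.trans (le_of_eq ?_)
            rw [hD, hS]
            ring, h2⟩
      have h4 : Pq u t x = (vort (u t) x ⬝ᵥ vort (u t) x)
          * rate (u t) ((nrm (vort (u t) x))⁻¹ • vort (u t) x) x := by
        unfold Pq rate
        rw [← nrm_sq, Matrix.mulVec_smul, smul_dotProduct, dotProduct_smul, smul_eq_mul,
          smul_eq_mul]
        field_simp
      have h5 : 0 ≤ vort (u t) x ⬝ᵥ vort (u t) x := Pool.Agent.H708R2.EulerTypeI.dot_self_nonneg _
      rw [h4, mul_comm]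
      refine mul_le_mul_of_nonneg_right (h3.trans ?_) h5
      have h6 : 0 ≤ nrm (vort (u t) x) ^ (1 - β / 2) := Real.rpow_nonneg hpos.le _
      rw [← hR, mul_assoc (C * (1 + E))]
      refine mul_le_mul_of_nonneg_left ?_ (by positivity)
      nlinarith [mul_nonneg hR0.le h6]

end Pool.Agent.Results.MP_b0497c_an.CoherentBlowupRate
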