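import Pool.Agent.U29.EU.Main

set_option autoImplicit false

/-!
# The Euler equations with a small generic local dispersive term

We add to the Euler equations on the torus `(ℝ / 2πℤ) ^ 3` a constant coefficient differential
operator `P(∂)` of odd order `d` with real coefficients, homogeneous of degree `d ≥ 13`. It is
skew-adjoint, so that it neither creates nor destroys energy, and it may be multiplied by an
arbitrarily small number `ε ≠ 0`:
`∂_t u + (u · ∇) u + ∇ p + ε P(∂) u = 0`, `div u = 0`
(in Fourier variables `P(∂)` is the multiplication by `i λ_k`, `λ_k = ± P(k)`). For Lebesgue-almost
every `P` these equations have unique global smooth solutions for ALL smooth data and all `ε ≠ 0`;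
the same for the Navier-Stokes equations with this term, `ν > 0`, with bounds for all Sobolev norms
which are uniform in the viscosity `ν ≤ N`, and grow slower than `e ^ (δ t)` for each `δ > 0`, and
the solutions converge to the solution without viscosity, at the rate `√ν`, as `ν → 0`.

Also for `ε (λ⁰ + P)` with any given odd dispersion relation `λ⁰` of polynomial growth and almost
every `P` (this contains the case `λ⁰ = 0` above), and in general if `|λ_k + λ_l + λ_m| ≥ c max(|k|, |l|, |m|) ^ τ` with some `τ > 5` for all but finitely
many triads `k + l + m = 0` of non-zero wave vectors.

Proof. One normal form step removes the non-resonant triads: the correction of the Sobolev norm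
`H ^ s` and the remainder (a sum over quadruples) are bounded by the energy times a norm of order
`< s` if `τ > 5`; the finitely many other triads are harmless. For a triad the vector of all
monomials of degree `d` has length `≥ κ max ^ (d - 1)`, so the measure of the set of coefficients
for which the triad is near-resonant is at most `C max ^ (τ + 1 - d)`, and the sum over all triads
converges for `d - 1 - τ > 6` (Borel-Cantelli).

Parts of this run: the engine is project DS of helper136 (`Pool/Agent/U136/DS`); helpers 29, 139,
208, 283, 324, 354, 401, 448, 460, 473, 527, 643, 668, 741, 876, 908, 913, 981.
-/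

namespace Pool.Agent.Results.MP_b0497c_an.GenericDispersion

open MeasureTheory Pool.Agent.N983.RT Pool.Agent.U136.DS Pool.Agent.U29.EU

/-- The Euler equations with an arbitrarily small generic local dispersive term are globally
well-posed for all smooth data, with Sobolev norms which grow slower than every exponential, and
are the limits of the Navier-Stokes equations with this term. -/
theorem result :
    (∀ lam : Wv → ℝ, Disp lam → ∀ c τ : ℝ, 0 < c → 5 < τ → FewRes lam c τ → GWPG lam) ∧
    ∀ d : ℕ, Odd d → 13 ≤ d → ∀ lam : Wv → ℝ, Disp lam →
      ∀ᵐ a : Mi d → ℝ, ∀ ε : ℝ, ε ≠ 0 → GWPG (fun k => ε * (lam k + pol a k)) :=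
  main

end Pool.Agent.Results.MP_b0497c_an.GenericDispersion
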