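import Pool.Agent.U571.EG.Quant

/-!
# A gap in the zero viscosity limit at a singularity of the Euler equations

Let `u` be a smooth periodic solution of the Euler equations on `[0, T)` and let `v = v^ν` be smooth
solutions of the Navier-Stokes equations with viscosity `ν` and the same initial velocity. If `u`
stays smooth up to the time `T`, the integrals `∫₀ᵀ sup |S(v^ν)| dt` of the strain are bounded as
`ν → 0`. Here we show that otherwise they are at least `10⁻⁶ log (1/ν)` for *all* small `ν`: no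
rate of growth strictly between `O(1)` and `log (1/ν)` is possible. So if the Navier-Stokes
solutions for a single sufficiently small viscosity satisfy `∫₀ᵀ sup |S(v^ν)| dt ≤ 10⁻⁶ log (1/ν)`,
then the Euler solution has no singularity up to the time `T`. The threshold for `ν` depends only on
the energy and the third derivatives of the initial velocity and on `T`; for a singularity with the
self-similar rate `|∇u| ~ 1 / (T - t)`, cut off at a power of `ν`, the rate `log (1/ν)` is exact.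

Proof: (1) `∑ ∫ |∂³u|²` grows at most at the rate `C sup |S(u)|`. (2) `S(u)` is, up to
`C r^{1/4} (∑ ∫ |∂³u|²)^{1/2}`, the average of `S(u)` over a ball of radius `r`, which differs from
that of `S(v)` by at most `C r⁻⁴ ‖u - v‖₂`. (3) `‖u - v‖₂² ≤ C ν T sup ‖∇u‖₂² exp (6 ∫ sup |S(v)|)`,
where no derivative of higher order of `v` enters. (4) A continuation argument for `∑ ∫ |∂³u|²`.
-/

set_option autoImplicit false

open MeasureTheory Set

namespace Pool.Agent.Results.MP_b0497c_an.ViscosityGap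

open H459R3.NS H459R3.EU Pool.Agent.TH340.PS Pool.Agent.U571.EG

/-- (1) For all `E, D` and `T > 0` there is `ν₀ > 0` with the following property. Let `(u, p)` be a
smooth periodic solution of the Euler equations on `[0, T)` and `(v, q)` a smooth periodic solution
of the Navier-Stokes equations on `[0, T)` with viscosity `ν ≤ ν₀` and the same initial velocity,
with energy at most `E` and `∑ ∫ |∂³u(0)|² ≤ D`. If the strain of `v` satisfies `|S(v)| ≤ β(t)` with
`∫₀ᵀ β ≤ 10⁻⁶ log (1/ν)`, then `∑ ∫ |∂³u(t)|² ≤ (D + 1) exp (41310 (∫₀ᵀ β + T))` and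
`∫ |u - v|² ≤ √ν` for all `t < T`.
(2) Conversely, for all `E, B` and `T > 0` there are `ν₀ > 0` and `B'` such that
`∑ ∫ |∂³v|² ≤ B'` and `|S(v)| ≤ B'` on `[0, T')` for all `T' ≤ T`, all `(u, p)` on `[0, T')` with
energy at most `E` and `∑ ∫ |∂³u(t)|² ≤ B` and all `(v, q)` as above with `ν ≤ ν₀`. -/
theorem result :
    (∀ E D T : ℝ, 0 < T → ∃ ν₀ : ℝ, 0 < ν₀ ∧
      ∀ (ν : ℝ) (u v : ℝ → V → V) (p q : ℝ → V → ℝ) (β : ℝ → ℝ), 0 < ν → ν ≤ ν₀ →
      IsSol 0 T u p → IsSol ν T v q → v 0 = u 0 → energy (u 0) ≤ E → dsq (u 0) ≤ D →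
      IntegrableOn β (Ioo 0 T) →
      (∀ t ∈ Ioo 0 T, 0 ≤ β t ∧ ∀ x, strain2 (v t) x ≤ β t ^ 2) →
      ∫ t in Ioo 0 T, β t ≤ 1 / 10 ^ 6 * Real.log (1 / ν) →
      ∀ t ∈ Ico 0 T,
        dsq (u t) ≤ (D + 1) * Real.exp (41310 * ((∫ s in Ioo 0 T, β s) + T)) ∧
        energy (fun y => u t y - v t y) ≤ Real.sqrt ν) ∧
    (∀ E B T : ℝ, 0 < T → ∃ ν₀ B' : ℝ, 0 < ν₀ ∧
      ∀ (ν T' : ℝ) (u v : ℝ → V → V) (p q : ℝ → V → ℝ), 0 < ν → ν ≤ ν₀ → 0 < T' → T' ≤ T →
      IsSol 0 T' u p → IsSol ν T' v q → v 0 = u 0 → energy (u 0) ≤ E →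
      (∀ t ∈ Ico 0 T', dsq (u t) ≤ B) →
      ∀ t ∈ Ico 0 T', dsq (v t) ≤ B' ∧ ∀ x, strain2 (v t) x ≤ B' ^ 2) := by
  constructor
  · intro E D T hT
    obtain ⟨Q, hQ1, hQ⟩ := small_enough (max E 0) (max D 0) T (1 / 2) (le_max_right _ _)
      (le_max_right _ _) hT (by norm_num)
    have hQ0 : 0 < Q := by linarith
    refine ⟨(Q⁻¹) ^ 80, by positivity, fun ν u v p q β hν hν₀ hu hv h0 hE hD hβ hβs hβK t ht => ?_⟩
    have hE0 : 0 ≤ E := (energy_nn _).trans hE
    have hD0 : 0 ≤ D := (dsq_nonneg _).trans hD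
    rw [max_eq_left hE0, max_eq_left hD0] at hQ
    have hK0 : 0 ≤ ∫ t in Ioo 0 T, β t :=
      setIntegral_nonneg measurableSet_Ioo fun s hs => (hβs s hs).1
    obtain ⟨y, hy0, hyQ, hy80, he1, he2⟩ := root_param hν hQ1 hν₀ hβK
    obtain ⟨hs1, hs2⟩ := hQ y _ hy0 hyQ hK0 he1 he2
    have eν : 1 / 2 * y ^ 80 = ν / 2 := by rw [hy80]; ring
    rw [eν] at hs1 hs2
    have key := euler_by_ns hν.le hT hu hv h0.symm hE hD hβ (fun s hs => (hβs s hs).1)
      (fun s hs => (hβs s hs).2) le_rfl hs1 t ht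
    refine ⟨key.1, key.2.trans (hs2.trans ?_)⟩
    have : Real.sqrt ν = y ^ 40 := by
      rw [← hy80, show y ^ 80 = (y ^ 40) ^ 2 by ring, Real.sqrt_sq (by positivity)]
    rw [this]
  · intro E B T hT
    set E' := max E 0 with hE'
    set B₁ := max B 0 with hB₁
    have hE'0 : 0 ≤ E' := le_max_right _ _
    have hB₁0 : 0 ≤ B₁ := le_max_right _ _
    set b : ℝ := Real.sqrt (E' + B₁) + 3 * Real.sqrt C4 * Real.sqrt B₁ with hb
    have hb0 : 0 ≤ b := by positivity
    set K : ℝ := b * T with hK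
    have hK0 : 0 ≤ K := by positivity
    set M : ℝ := Mx B₁ K T with hM
    have hM0 : 0 < M := by rw [hM]; unfold Mx; positivity
    have hBM : B₁ ≤ M := by
      rw [hM]
      unfold Mx
      have : 1 ≤ Real.exp (41310 * (K + T)) := Real.one_le_exp (by positivity)
      nlinarith
    set b' : ℝ := Real.sqrt (E' + M) + 3 * Real.sqrt C4 * Real.sqrt M with hb'
    have hb'0 : 0 ≤ b' := by positivity
    obtain ⟨Q, hQ1, hQ⟩ := small_enough E' B₁ T (1 / 2) hE'0 hB₁0 hT (by norm_num)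
    have hQ0 : 0 < Q := by linarith
    refine ⟨min ((Q⁻¹) ^ 80) (Real.exp (-(10 ^ 6 * K))), M + 3 * b', by positivity,
      fun ν T' u v p q hν hν₀ hT'0 hT' hu hv h0 hE hB t ht => ?_⟩
    have h0T : (0 : ℝ) ∈ Ico 0 T' := ⟨le_rfl, hT'0⟩
    have hνK : K ≤ 1 / 10 ^ 6 * Real.log (1 / ν) := by
      have h1 : ν ≤ Real.exp (-(10 ^ 6 * K)) := hν₀.trans (min_le_right _ _)
      have h2 : Real.log ν ≤ -(10 ^ 6 * K) := by
        have := Real.log_le_log hν h1
        rwa [Real.log_exp] at this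
      rw [one_div ν, Real.log_inv]
      linarith
    obtain ⟨y, hy0, hyQ, hy80, he1, he2⟩ := root_param hν hQ1 (hν₀.trans (min_le_left _ _)) hνK
    obtain ⟨hs1, hs2⟩ := hQ y K hy0 hyQ hK0 he1 he2
    have eν : 1 / 2 * y ^ 80 = ν / 2 := by rw [hy80]; ring
    rw [eν] at hs1 hs2
    have hEE : energy (u 0) ≤ E' := hE.trans (le_max_left _ _)
    have hBB : ∀ t ∈ Ico 0 T', dsq (u t) ≤ B₁ := fun t ht => (hB t ht).trans (le_max_left _ _)
    have hstr : ∀ t ∈ Ioo 0 T', ∀ i j x, |str (fun k y => u t y k) i j x| ≤ b := by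
      intro s hs
      have hI : s ∈ Ico 0 T' := ⟨hs.1.le, hs.2⟩
      exact str_sup_le (fun i => hu.sp hI i) ((energy_le le_rfl hu hI).trans hEE) (hBB s hI)
    have hMT : Mx B₁ K T' ≤ M := by
      rw [hM]
      unfold Mx
      gcongr
    have hsm : 2592 * Rx (Mx B₁ K T') ^ 16 *
        Real.sqrt (ν / 2 * (E' + B₁) * T' * Real.exp (6 * K + 1)) ≤ 1 / 2 := by
      refine le_trans ?_ hs1
      have k1 : Rx (Mx B₁ K T') ^ 16 ≤ Rx (Mx B₁ K T) ^ 16 :=
        pow_le_pow_left₀ (by linarith [Rx_ge_one (Mx B₁ K T')]) (Rx_mono hMT) 16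
      have k2 : ν / 2 * (E' + B₁) * T' * Real.exp (6 * K + 1)
          ≤ ν / 2 * (E' + 2 * Mx B₁ K T) * T * Real.exp (6 * K + 1) := by
        rw [← hM]
        gcongr
        linarith
      have k3 := Rx_ge_one (Mx B₁ K T)
      refine mul_le_mul (mul_le_mul_of_nonneg_left k1 (by norm_num)) (Real.sqrt_le_sqrt k2)
        (Real.sqrt_nonneg _) (by positivity)
    have key := ns_by_euler hν.le hT'0 hu hv h0.symm hEE hBB hstr
      (mul_le_mul_of_nonneg_left hT' hb0) hsm t ht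
    have hvM : dsq (v t) ≤ M := key.trans hMT
    have hvE : energy (v t) ≤ E' := (energy_le hν.le hv ht).trans (by rw [h0]; exact hEE)
    have hvs := str_sup_le (fun i => hv.sp ht i) hvE hvM
    refine ⟨by linarith, fun x => (strain2_le hvs x).trans ?_⟩
    exact pow_le_pow_left₀ (by positivity) (by linarith) 2

end Pool.Agent.Results.MP_b0497c_an.ViscosityGap
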