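import Pool.Agent.U481.LN.Low

/-!
# The length of vortex lines in the regions of large vorticity (Euler equations)

The vortex lines of a solution of the Euler equations are carried by the flow. Consider an arc of a
vortex line at the time `t`, on which the vorticity is much larger than it was *anywhere* at an
earlier time `s < t`. Followed back to the time `s` the arc is short, since the vorticity is small
there; the length of its chord changes at most by the integral of the velocity. So the *chord* of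
the arc at the time `t` is short. If the direction of the vorticity does not turn too much along
the arc then the arc itself is short. This gives an inequality without any hypothesis on the
solution: with `K` the total variation of the direction of the vorticity on the arc (its total
curvature) and `osc u` the oscillation of the velocity,

`length ≤ 4 (K + 1) ∫_s^t osc u`, if `|ω(t)| ≥ 4 sup |ω(s)|` on the arc.

By the conservation of energy `sup |u| ≤ C (E^(1/5) (sup |ω|)^(3/5) + E^(1/2))`.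

Consequences: for `sup |ω(t)| ≤ A (T - t)^(-γ)`, `γ < 5/3`, the arcs in the set `{|ω(t)| ≥ λ}` have
length at most `C (K + 1) λ^(-(5 - 3 γ) / (5 γ))` (for the self-similar rate `γ = 1` the exponent is
`2/5`): near a singularity the vortex lines of large vorticity are short or strongly curved. If on
the other hand at all times near the singularity there is an arc with length at least
`(K + 1) c (T - t)^δ` in the region where the vorticity is comparable with its maximum, then the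
maximum of the vorticity is at least `c' (T - t)^(-5 (1 - δ) / 3)`; so there is no singularity of
Type I for `δ < 2/5`. And there is no singularity at all if the oscillation of the velocity is at
most `A (T - t)^(-α)` and `δ < 1 - α`. The arcs at different times are arbitrary: they need not be
carried to each other by the flow.
-/

open MeasureTheory Set Filter
open scoped ENNReal Topology

set_option autoImplicit false

namespace Pool.Agent.Results.MP_b0497c_an.VortexLineLength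

open Pool.Agent.H708R2.EulerSign Pool.Agent.H708R2.EulerTypeI Pool.Agent.U481.EU

/-- `Γ : [a, b] → ℝ³` is an arc of a vortex line of the velocity field `v`, that is, `Γ' = ω(Γ)`. -/
def VortexArc (v : V → V) (Γ : ℝ → V) (a b : ℝ) : Prop :=
  a ≤ b ∧ ∀ τ ∈ Icc a b, HasDerivWithinAt Γ (vort v (Γ τ)) (Icc a b) τ

/-- The length of a vortex arc. -/
noncomputable def length (v : V → V) (Γ : ℝ → V) (a b : ℝ) : ℝ := ∫ τ in a..b, nrm (vort v (Γ τ))

/-- The total variation (in the Euclidean norm) of the direction of the vorticity on an arc, that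
is, the total curvature of the arc. -/
noncomputable def turning (v : V → V) (Γ : ℝ → V) (a b : ℝ) : ℝ≥0∞ :=
  eVariationOn (fun τ => (WithLp.toLp 2 (dirv v (Γ τ)) : EuclideanSpace ℝ (Fin 3))) (Icc a b)

/-- There is a vortex arc on which the vorticity is at least `η` times its maximum over space, with
total curvature at most `K` and length at least `r (K + 1)`, for some `K ≥ 0`. -/
def LongArc (η r : ℝ) (v : V → V) : Prop :=
  ∃ (Γ : ℝ → V) (a b K : ℝ), 0 ≤ K ∧ VortexArc v Γ a b ∧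
    (∀ τ ∈ Icc a b, ∀ x, η * nrm (vort v x) ≤ nrm (vort v (Γ τ))) ∧
    turning v Γ a b ≤ ENNReal.ofReal K ∧ r * (K + 1) ≤ length v Γ a b

/-- Let `(u, p)` be a `C²` periodic solution of the Euler equations on `[0, T)`, and `ω(t)` the
vorticity at the time `t`.

(1) Let `0 < s ≤ t < T`, `|ω(s)| ≤ W` everywhere and `|u(σ, x) - u(σ, y)| ≤ D(σ)` for all `x, y` and
`s < σ < t`, where `D` is integrable. Each vortex arc `Γ` at the time `t` satisfies
`|Γ(b) - Γ(a)| ≤ W (b - a) + ∫_s^t D`. If `ω(t) ≠ 0` on the arc and its total curvature is at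
most `K`, then its length is at most `2 W (b - a) + 2 (K + 1) ∫_s^t D`, and at most
`4 (K + 1) ∫_s^t D` if `|ω(t)| ≥ 4 W` on the arc.

(2) The last bound in terms of the vorticity alone: if `|ω(σ)| ≤ M(σ)` for `s < σ < t` and the
energy is at most `E`, then the length is at most
`C (K + 1) ∫_s^t (E^(1/5) M^(3/5) + E^(1/2))` with an absolute constant `C`.

(3) Let `|ω(t)| ≤ A (T - t)^(-γ)` with `0 < γ < 5/3`. For `λ ≥ λ₀` the vortex arcs in the set
`{|ω(t)| ≥ λ}` with total curvature at most `K` have length at most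
`C (K + 1) λ^(-(5 - 3 γ) / (5 γ))`, at all times; `C` and `λ₀` depend on `T, E, A, γ` only.

(4) If `|u(t, x) - u(t, y)| ≤ A (T - t)^(-α)` and there is a `LongArc` with `r = c (T - t)^δ`, for all
`t` near `T`, where `0 ≤ δ < 1 - α`, then the Beale-Kato-Majda integral is finite.

(5) If there is a `LongArc` with `r = c (T - t)^δ` for all `t` near `T`, where `0 ≤ δ < 1`, and the
Beale-Kato-Majda integral is infinite, then `max |ω(t)| ≥ c' (T - t)^(-5 (1 - δ) / 3)` for `t` near
`T`; `c' > 0` depends on `E, η, c, δ` only. -/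
theorem result :
    (∀ (T s t : ℝ) (u : ℝ → V → V) (p : ℝ → V → ℝ) (Γ : ℝ → V) (a b W : ℝ) (D : ℝ → ℝ),
      IsC2Solution T u p → 0 < s → s ≤ t → t < T → VortexArc (u t) Γ a b →
      (∀ x, nrm (vort (u s) x) ≤ W) → IntervalIntegrable D volume s t →
      (∀ σ ∈ Ioo s t, ∀ x y, nrm (u σ x - u σ y) ≤ D σ) →
      nrm (Γ b - Γ a) ≤ W * (b - a) + ∫ σ in s..t, D σ ∧
      ∀ K : ℝ, 0 ≤ K → turning (u t) Γ a b ≤ ENNReal.ofReal K →
        (∀ τ ∈ Icc a b, vort (u t) (Γ τ) ≠ 0) →
        length (u t) Γ a b ≤ 2 * W * (b - a) + 2 * (K + 1) * ∫ σ in s..t, D σ ∧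
        ((∀ τ ∈ Icc a b, 4 * W ≤ nrm (vort (u t) (Γ τ))) →
          length (u t) Γ a b ≤ 4 * (K + 1) * ∫ σ in s..t, D σ)) ∧
    (∃ C : ℝ, 0 < C ∧ ∀ (T s t : ℝ) (u : ℝ → V → V) (p : ℝ → V → ℝ) (Γ : ℝ → V)
      (a b W K E : ℝ) (M : ℝ → ℝ),
      IsC2Solution T u p → 0 < s → s ≤ t → t < T → VortexArc (u t) Γ a b →
      (∀ x, nrm (vort (u s) x) ≤ W) →
      IntervalIntegrable (fun σ => M σ ^ (3 / 5 : ℝ)) volume s t →
      (∀ σ ∈ Ioo s t, ∀ x, nrm (vort (u σ) x) ≤ M σ) → 0 < E → ener (u 0) ≤ E →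
      0 ≤ K → turning (u t) Γ a b ≤ ENNReal.ofReal K →
      (∀ τ ∈ Icc a b, vort (u t) (Γ τ) ≠ 0 ∧ 4 * W ≤ nrm (vort (u t) (Γ τ))) →
      length (u t) Γ a b
        ≤ C * (K + 1) * ∫ σ in s..t, (E ^ (1 / 5 : ℝ) * M σ ^ (3 / 5 : ℝ) + E ^ (1 / 2 : ℝ))) ∧
    (∀ T E A γ : ℝ, 0 < T → 0 < E → 0 < A → 0 < γ → γ < 5 / 3 → ∃ C lam₀ : ℝ, 0 < C ∧ 0 < lam₀ ∧
      ∀ (u : ℝ → V → V) (p : ℝ → V → ℝ), IsC2Solution T u p → ener (u 0) ≤ E →
        (∀ t ∈ Ioo 0 T, ∀ x, nrm (vort (u t) x) ≤ A * (T - t) ^ (-γ)) →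
        ∀ t ∈ Ioo 0 T, ∀ (Γ : ℝ → V) (a b K lam : ℝ), lam₀ ≤ lam → VortexArc (u t) Γ a b →
          (∀ τ ∈ Icc a b, lam ≤ nrm (vort (u t) (Γ τ))) → 0 ≤ K →
          turning (u t) Γ a b ≤ ENNReal.ofReal K →
          length (u t) Γ a b ≤ C * (K + 1) * lam ^ (-((5 - 3 * γ) / (5 * γ)))) ∧
    (∀ (T η c δ α A : ℝ) (u : ℝ → V → V) (p : ℝ → V → ℝ), IsC2Solution T u p → 0 < η → 0 < c →
      0 ≤ δ → δ < 1 - α → 0 ≤ A →
      (∀ᶠ t in 𝓝[<] T, ∀ x y, nrm (u t x - u t y) ≤ A * (T - t) ^ (-α)) →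
      (∀ᶠ t in 𝓝[<] T, LongArc η (c * (T - t) ^ δ) (u t)) → BKMFinite T u) ∧
    (∀ E η c δ : ℝ, 0 < E → 0 < η → 0 < c → 0 ≤ δ → δ < 1 → ∃ c' : ℝ, 0 < c' ∧
      ∀ (T : ℝ) (u : ℝ → V → V) (p : ℝ → V → ℝ), IsC2Solution T u p → ener (u 0) ≤ E →
        ¬ BKMFinite T u → (∀ᶠ t in 𝓝[<] T, LongArc η (c * (T - t) ^ δ) (u t)) →
        ∀ᶠ t in 𝓝[<] T, ∃ x, c' * (T - t) ^ (-(5 * (1 - δ) / 3)) ≤ nrm (vort (u t) x)) := by
  refine ⟨?_, ⟨8 * Pool.Agent.U481.LN.Cv, ?_, ?_⟩, ?_, ?_, ?_⟩
  · intro T s t u p Γ a b W D h hs hst ht hΓ hW hDi hD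
    refine ⟨Pool.Agent.U481.LN.chord h hs hst ht hΓ hW hDi hD, fun K hK hKd h0 => ⟨?_, ?_⟩⟩
    · exact Pool.Agent.U481.LN.len_bound h hs hst ht hΓ h0 hW hDi hD hK hKd
    · exact Pool.Agent.U481.LN.len_bound4 h hs hst ht hΓ h0 hW hDi hD hK hKd
  · have := Pool.Agent.U481.LN.Cv_pos
    positivity
  · intro T s t u p Γ a b W K E M h hs hst ht hΓ hW hMi hM hE0 hE hK hKd h0
    exact Pool.Agent.U481.LN.len_M4 h hs hst ht hΓ (fun τ hτ => (h0 τ hτ).1)
      (fun τ hτ => (h0 τ hτ).2) hW hMi hM hE0 hE hK hKd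
  · exact fun T E A γ hT hE hA hγ0 hγ => Pool.Agent.U481.LN.short T E A γ hT hE hA hγ0 hγ
  · exact fun T η c δ α A u p h hη hc hδ0 hδ hA hU hl =>
      Pool.Agent.U481.LN.no_blowup h hη hc hδ0 hδ hA hU hl
  · exact fun E η c δ hE hη hc hδ0 hδ => Pool.Agent.U481.LN.rate_low E η c δ hE hη hc hδ0 hδ

end Pool.Agent.Results.MP_b0497c_an.VortexLineLength
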